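import Mathlib

/-!
THEOREM K3F (families): countable fields of characteristic zero embed into `ℂ`.
-/

set_option autoImplicit false

open Cardinal

namespace Pool.Agent.LibK3F

theorem exists_embedding_complex (F : Type) [Field F] [CharZero F] [Countable F] :
    Nonempty (F →+* ℂ) := by
  let R := MvPolynomial ℝ F
  let Ω := AlgebraicClosure (FractionRing R)
  have h1 : #R = 𝔠 := by
    have h2 := MvPolynomial.cardinalMk_eq_max (σ := ℝ) (R := F)
    rw [h2]
    have h3 : #F ≤ ℵ₀ := Cardinal.mk_le_aleph0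
    rw [Cardinal.mk_real]
    have h4 : ℵ₀ ≤ 𝔠 := Cardinal.aleph0_le_continuum
    rw [max_eq_right (h3.trans h4), max_eq_left h4]
  have h2 : #(FractionRing R) = 𝔠 := by
    rw [← h1]
    exact (Cardinal.mk_fractionRing R)
  have h3 : #Ω = 𝔠 := by
    apply le_antisymm
    · refine (Algebra.IsAlgebraic.cardinalMk_le_max (FractionRing R) Ω).trans ?_
      rw [h2]
      exact max_le le_rfl Cardinal.aleph0_le_continuum
    · rw [← h2]
      exact Cardinal.mk_le_of_injective (algebraMap (FractionRing R) Ω).injective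
  have hchar : CharZero (FractionRing R) := inferInstance
  have hchar2 : CharZero Ω := inferInstance
  have h4 : #Ω = #ℂ := by rw [h3, Cardinal.mk_complex]
  obtain ⟨e0⟩ := Cardinal.eq.1 h4
  obtain ⟨e⟩ := IsAlgClosed.ringEquiv_of_equiv_of_charZero (K := Ω) (L := ℂ)
    (by rw [h3]; exact Cardinal.aleph0_lt_continuum) ⟨e0⟩
  exact ⟨(e : Ω →+* ℂ).comp ((algebraMap (FractionRing R) Ω).comp
    ((algebraMap R (FractionRing R)).comp MvPolynomial.C))⟩

end Pool.Agent.LibK3F

namespace Pool.Agent.LibK3F

open Cardinal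

theorem countable_ratFunc (k : Type) [Field k] [NumberField k] (n : ℕ) :
    Countable (FractionRing (MvPolynomial (Fin n) k)) := by
  have h1 : #k ≤ ℵ₀ := by
    refine (Algebra.IsAlgebraic.cardinalMk_le_max ℚ k).trans ?_
    rw [Cardinal.mk_eq_aleph0 ℚ, max_self]
  rw [← Cardinal.mk_le_aleph0_iff, Cardinal.mk_fractionRing]
  refine MvPolynomial.cardinalMk_le_max.trans ?_
  exact max_le (max_le h1 Cardinal.mk_le_aleph0) le_rfl

/-- An embedding of `k(t_1, ..., t_n)` in `ℂ`. -/
theorem exists_embedding_ratFunc (k : Type) [Field k] [NumberField k] (n : ℕ) {K0 : Type}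
    [Field K0] [Algebra k K0] (e0 : K0 ≃ₐ[k] FractionRing (MvPolynomial (Fin n) k)) :
    CharZero K0 ∧ Nonempty (K0 →+* ℂ) := by
  have h0 : CharZero K0 := charZero_of_injective_algebraMap (algebraMap k K0).injective
  have h1 := countable_ratFunc k n
  have h2 : Countable K0 := e0.injective.countable
  exact ⟨h0, exists_embedding_complex K0⟩

end Pool.Agent.LibK3F
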