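import Pool.Agent.LibHP.SDefs

/-!
THEOREM K3F (families): the local rings of the generic fibre.
-/

set_option autoImplicit false

open AlgebraicGeometry CategoryTheory CategoryTheory.Limits

namespace Pool.Agent.LibK3F

theorem flat_fromSpecStalk {S : Scheme} (s : S) : Flat (S.fromSpecStalk s) := by
  obtain ⟨U, hU, hsU, -⟩ := exists_isAffineOpen_mem_and_subset (X := S) (x := s) (U := ⊤) trivial
  rw [← hU.fromSpecStalk_eq_fromSpecStalk hsU, IsAffineOpen.fromSpecStalk]
  let _ : Algebra Γ(S, U) (S.presheaf.stalk s) := TopCat.Presheaf.algebra_section_stalk S.presheaf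
    (⟨s, hsU⟩ : U)
  have hloc := hU.isLocalization_stalk ⟨s, hsU⟩
  have h1 : Flat (Spec.map (S.presheaf.germ U s hsU)) := by
    rw [Flat.SpecMap_iff]
    exact IsLocalization.flat (S.presheaf.stalk s) (hU.primeIdealOf ⟨s, hsU⟩).asIdeal.primeCompl
  infer_instance

variable {X S Y : Scheme} (p : X ⟶ S) (q : Y ⟶ X) (s : S) (h : Y ⟶ Spec (S.presheaf.stalk s))
  (hpb : IsPullback q h p (S.fromSpecStalk s))

include hpb

theorem isPreimmersion_fst : IsPreimmersion q :=
  MorphismProperty.of_isPullback hpb.flip inferInstance

theorem flat_fst : Flat q := by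
  have := flat_fromSpecStalk s
  exact MorphismProperty.of_isPullback hpb.flip this

/-- The morphism from a fibre over a localization is injective on points. -/
theorem injective_fst : Function.Injective q := by
  have := isPreimmersion_fst p q s h hpb
  exact q.isEmbedding.injective

/-- ... and bijective on local rings. -/
theorem stalkMap_bijective (y : Y) : Function.Bijective (q.stalkMap y).hom := by
  have h1 := isPreimmersion_fst p q s h hpb
  have h2 := flat_fst p q s h hpb
  refine ⟨?_, q.stalkMap_surjective y⟩
  have h3 : (q.stalkMap y).hom.Flat := Flat.stalkMap q y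
  let _ : Algebra (X.presheaf.stalk (q y)) (Y.presheaf.stalk y) := (q.stalkMap y).hom.toAlgebra
  have h4 : Module.Flat (X.presheaf.stalk (q y)) (Y.presheaf.stalk y) := h3
  have h5 : IsLocalHom (algebraMap (X.presheaf.stalk (q y)) (Y.presheaf.stalk y)) :=
    inferInstanceAs (IsLocalHom (q.stalkMap y).hom)
  have h6 : Module.FaithfullyFlat (X.presheaf.stalk (q y)) (Y.presheaf.stalk y) :=
    Module.FaithfullyFlat.of_flat_of_isLocalHom
  exact FaithfulSMul.algebraMap_injective (X.presheaf.stalk (q y)) (Y.presheaf.stalk y)

end Pool.Agent.LibK3F
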