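import Pool.Agent.LibK3F.GF1
import Pool.Agent.LibK3.BC11

/-!
THEOREM K3F (families): the function field and the local rings of the generic fibre.
-/

set_option autoImplicit false

open AlgebraicGeometry CategoryTheory CategoryTheory.Limits
open Pool.Agent.LibHP Pool.Agent.LibK3

namespace Pool.Agent.LibK3F

variable {X Y : Scheme} [IsIntegral X] [IsIntegral Y] (q : Y ⟶ X)

theorem gf2_algebraMap {X : Scheme} [IsIntegral X] (x : X) (a : X.presheaf.stalk x) :
    algebraMap (X.presheaf.stalk x) X.functionField a =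
      X.presheaf.stalkSpecializes ((genericPoint_spec X).specializes (Set.mem_univ x)) a := rfl

/-- The isomorphism of the function fields. -/
theorem exists_ff (hq : ∀ y, Function.Bijective (q.stalkMap y).hom) :
    ∃ e : X.functionField ≃+* Y.functionField, ∀ (y : Y) (a : X.presheaf.stalk (q y)),
      e (algebraMap (X.presheaf.stalk (q y)) X.functionField a) =
        algebraMap (Y.presheaf.stalk y) Y.functionField (q.stalkMap y a) := by
  set η := genericPoint Y with hη
  -- the local ring at `q η` is a field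
  let st : X.presheaf.stalk (q η) ≃+* Y.presheaf.stalk η :=
    RingEquiv.ofBijective (q.stalkMap η).hom (hq η)
  have hf : IsField (X.presheaf.stalk (q η)) :=
    MulEquiv.isField (Field.toIsField Y.functionField) st.toMulEquiv
  have hbij : Function.Bijective (algebraMap (X.presheaf.stalk (q η)) X.functionField) := by
    refine ⟨IsFractionRing.injective _ _, fun z => ?_⟩
    obtain ⟨a, b, hb, rfl⟩ := IsFractionRing.div_surjective (A := X.presheaf.stalk (q η)) z
    have hb0 : b ≠ 0 := nonZeroDivisors.ne_zero hb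
    obtain ⟨c, hc⟩ := hf.mul_inv_cancel hb0
    refine ⟨a * c, ?_⟩
    have hb1 : algebraMap (X.presheaf.stalk (q η)) X.functionField b ≠ 0 := by
      rw [Ne, map_eq_zero_iff _ (IsFractionRing.injective _ _)]
      exact hb0
    rw [eq_div_iff hb1, ← map_mul, mul_assoc, mul_comm c b, hc, mul_one]
  let φ : X.presheaf.stalk (q η) ≃+* X.functionField := RingEquiv.ofBijective _ hbij
  refine ⟨φ.symm.trans st, fun y a => ?_⟩
  have hs : η ⤳ y := (genericPoint_spec Y).specializes (Set.mem_univ y)
  have h1 : algebraMap (X.presheaf.stalk (q y)) X.functionField a =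
      φ (X.presheaf.stalkSpecializes (q.base.hom.map_specializes hs) a) := by
    change _ = algebraMap (X.presheaf.stalk (q η)) X.functionField _
    rw [gf2_algebraMap, gf2_algebraMap, ← CommRingCat.comp_apply,
      TopCat.Presheaf.stalkSpecializes_comp]
  rw [h1]
  change st (φ.symm (φ _)) = _
  rw [RingEquiv.symm_apply_apply]
  exact q.stalkSpecializes_stalkMap_apply η y hs a

/-- The local rings. -/
theorem stk_eq (e : X.functionField ≃+* Y.functionField) (y : Y)
    (he : ∀ a : X.presheaf.stalk (q y),
      e (algebraMap (X.presheaf.stalk (q y)) X.functionField a) =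
        algebraMap (Y.presheaf.stalk y) Y.functionField (q.stalkMap y a))
    (hq : Function.Bijective (q.stalkMap y).hom) (z : X.functionField) :
    e z ∈ stk Y y ↔ z ∈ stk X (q y) := by
  constructor
  · rintro ⟨b, hb⟩
    obtain ⟨a, rfl⟩ := hq.2 b
    refine ⟨a, e.injective ?_⟩
    rw [he]
    exact hb
  · rintro ⟨a, rfl⟩
    exact ⟨q.stalkMap y a, (he a).symm⟩

omit [IsIntegral X] [IsIntegral Y] in
theorem krullDim_eq (y : Y) (hq : Function.Bijective (q.stalkMap y).hom) :
    ringKrullDim (X.presheaf.stalk (q y)) = ringKrullDim (Y.presheaf.stalk y) :=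
  ringKrullDim_eq_of_ringEquiv (RingEquiv.ofBijective (q.stalkMap y).hom hq)

omit [IsIntegral X] [IsIntegral Y] in
/-- The residue fields. -/
theorem exists_resEquiv (y : Y) (hq : Function.Bijective (q.stalkMap y).hom) :
    ∃ ρ : X.residueField (q y) ≃+* Y.residueField y, ∀ a : X.presheaf.stalk (q y),
      ρ (X.residue (q y) a) = Y.residue y (q.stalkMap y a) := by
  have h1 : ∀ a : X.presheaf.stalk (q y), q.residueFieldMap y (X.residue (q y) a) =
      Y.residue y (q.stalkMap y a) := by
    intro a
    have := Scheme.residue_residueFieldMap q y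
    exact congrArg (fun φ : X.presheaf.stalk (q y) ⟶ Y.residueField y => φ.hom a) this
  have h2 : Function.Bijective (q.residueFieldMap y).hom := by
    refine ⟨(q.residueFieldMap y).hom.injective, fun z => ?_⟩
    obtain ⟨b, rfl⟩ := Y.residue_surjective y z
    obtain ⟨a, rfl⟩ := hq.2 b
    exact ⟨X.residue (q y) a, h1 a⟩
  exact ⟨RingEquiv.ofBijective _ h2, h1⟩

omit [IsIntegral X] [IsIntegral Y] in
/-- The constants. -/
theorem stalkMap_toStalk {k K0 : Type} [Field k] [Field K0] [Algebra k K0]
    (f : X ⟶ Spec (CommRingCat.of k)) (h : Y ⟶ Spec (CommRingCat.of K0))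
    (hc : q ≫ f = h ≫ Spec.map (CommRingCat.ofHom (algebraMap k K0))) (y : Y) (c : k) :
    q.stalkMap y (toStalk f (q y) c) = toStalk h y (algebraMap k K0 c) := by
  rw [toStalk, toStalk]
  have h1 : (f.appTop ≫ X.presheaf.germ ⊤ (q y) trivial) ≫ q.stalkMap y =
      (Spec.map (CommRingCat.ofHom (algebraMap k K0))).appTop ≫ h.appTop ≫
        Y.presheaf.germ ⊤ y trivial := by
    rw [Category.assoc, q.germ_stalkMap]
    have h2 : f.appTop ≫ q.appTop =
        (Spec.map (CommRingCat.ofHom (algebraMap k K0))).appTop ≫ h.appTop := by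
      rw [← Scheme.Hom.comp_appTop, ← Scheme.Hom.comp_appTop, hc]
    rw [← Category.assoc, ← Category.assoc]
    exact congrArg (· ≫ Y.presheaf.germ ⊤ y trivial) h2
  have h3 := congrArg (fun φ => (Scheme.ΓSpecIso (CommRingCat.of k)).inv ≫ φ) h1
  have h4 : (Scheme.ΓSpecIso (CommRingCat.of k)).inv ≫
      (Spec.map (CommRingCat.ofHom (algebraMap k K0))).appTop =
      CommRingCat.ofHom (algebraMap k K0) ≫ (Scheme.ΓSpecIso (CommRingCat.of K0)).inv :=
    (Scheme.ΓSpecIso_inv_naturality _).symm
  simp only [← Category.assoc] at h3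
  rw [h4] at h3
  exact congrArg (fun φ : CommRingCat.of k ⟶ Y.presheaf.stalk y => φ.hom c) h3

end Pool.Agent.LibK3F
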