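import Pool.Agent.LibHP.H9

/-!
THEOREM K3F (families), Hilbert irreducibility for homomorphisms to `k(t_1, ..., t_r)`.
-/

set_option autoImplicit false
open Polynomial TensorProduct
open Pool.Agent.LibHP

namespace Pool.Agent.LibK3F

/-- If `φ : A → κ` does not extend to the finite `A`-algebra `B` then there are an element `b` of `B`
and a monic polynomial `μ` over `κ` without roots, with `μ(b) = 0` after every specialization. -/
theorem exists_elt {k κ A B : Type} [Field k] [Infinite k] [Field κ] [Algebra k κ] [CommRing A]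
    [Algebra k A] [CommRing B] (φ : A →ₐ[k] κ) (α : A →+* B) (hα : α.Finite)
    (hno : ¬ ∃ ψ : B →+* κ, ψ.comp α = (φ : A →+* κ)) :
    ∃ (b : B) (μ : κ[X]), μ.Monic ∧ (∀ r, ¬ μ.IsRoot r) ∧ ∃ T : Finset κ,
      ∀ C : Subalgebra k κ, (∀ a, φ a ∈ C) → (∀ t ∈ T, t ∈ C) →
        ∀ μ' : C[X], μ'.map (algebraMap C κ) = μ → ∀ (χ : C →+* k) (τ : B →+* k),
          (∀ a (c : C), (c : κ) = φ a → τ (α a) = χ c) → (μ'.map χ).IsRoot (τ b) := by
  classical
  let _ : Algebra A B := α.toAlgebra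
  let _ : Algebra A κ := (φ : A →+* κ).toAlgebra
  have hfin : Module.Finite A B := hα
  let _ : Algebra k B := (α.comp (algebraMap k A)).toAlgebra
  have hfin2 : Module.Finite κ (κ ⊗[A] B) := inferInstance
  have hart : IsArtinianRing (κ ⊗[A] B) := IsArtinianRing.of_finite κ (κ ⊗[A] B)
  have hfm : Finite (MaximalSpectrum (κ ⊗[A] B)) := inferInstance
  -- the embedding of `κ` in the residue fields
  let e : ∀ m : MaximalSpectrum (κ ⊗[A] B), κ →+* (κ ⊗[A] B) ⧸ m.asIdeal := fun m =>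
    (Ideal.Quotient.mk m.asIdeal).comp (algebraMap κ (κ ⊗[A] B))
  have he : ∀ m, ¬ Function.Surjective (e m) := by
    intro m hs
    have hm := m.isMaximal
    let _ : Field ((κ ⊗[A] B) ⧸ m.asIdeal) := Ideal.Quotient.field m.asIdeal
    have hi : Function.Injective (e m) := (e m).injective
    let E : κ ≃+* (κ ⊗[A] B) ⧸ m.asIdeal := RingEquiv.ofBijective (e m) ⟨hi, hs⟩
    apply hno
    refine ⟨(E.symm : _ →+* κ).comp ((Ideal.Quotient.mk m.asIdeal).comp
      (Algebra.TensorProduct.includeRight (R := A) (A := κ) (B := B) : B →+* κ ⊗[A] B)), ?_⟩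
    ext a
    have h1 : (Algebra.TensorProduct.includeRight (R := A) (A := κ) (B := B)) (α a) =
        algebraMap κ (κ ⊗[A] B) (φ a) := by
      have h2 : α a = algebraMap A B a := rfl
      rw [h2, AlgHom.commutes]
      rfl
    change E.symm (Ideal.Quotient.mk m.asIdeal
      ((Algebra.TensorProduct.includeRight (R := A) (A := κ) (B := B)) (α a))) = φ a
    rw [h1]
    exact E.symm_apply_apply (φ a)
  -- the elements with value in `κ`
  let V : MaximalSpectrum (κ ⊗[A] B) → Submodule k B := fun m =>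
    { carrier := {b | ∃ c : κ, Ideal.Quotient.mk m.asIdeal ((1 : κ) ⊗ₜ[A] b) = e m c}
      zero_mem' := ⟨0, by rw [TensorProduct.tmul_zero, map_zero, map_zero]⟩
      add_mem' := by
        rintro x y ⟨c, hc⟩ ⟨d, hd⟩
        exact ⟨c + d, by rw [TensorProduct.tmul_add, map_add, map_add, hc, hd]⟩
      smul_mem' := by
        rintro r x ⟨c, hc⟩
        refine ⟨algebraMap k κ r * c, ?_⟩
        have h1 : (1 : κ) ⊗ₜ[A] (r • x) =
            algebraMap κ (κ ⊗[A] B) (algebraMap k κ r) * ((1 : κ) ⊗ₜ[A] x) := by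
          have h2 : r • x = (algebraMap k A r) • x := by
            rw [Algebra.smul_def, Algebra.smul_def]
            rfl
          rw [h2, ← TensorProduct.smul_tmul, Algebra.TensorProduct.algebraMap_apply,
            Algebra.TensorProduct.tmul_mul_tmul, one_mul, Algebra.smul_def]
          have h3 : algebraMap A κ (algebraMap k A r) = algebraMap k κ r := φ.commutes r
          rw [h3]
          rfl
        rw [h1, map_mul, hc, map_mul]
        rfl }
  have hV : ∀ m, V m ≠ ⊤ := by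
    intro m hm
    apply he m
    intro y
    obtain ⟨z, rfl⟩ := Ideal.Quotient.mk_surjective y
    induction z using TensorProduct.induction_on with
    | zero => exact ⟨0, by rw [map_zero, map_zero]⟩
    | tmul c b =>
      obtain ⟨d, hd⟩ : b ∈ V m := hm ▸ Submodule.mem_top
      refine ⟨c * d, ?_⟩
      have h1 : c ⊗ₜ[A] b = algebraMap κ (κ ⊗[A] B) c * ((1 : κ) ⊗ₜ[A] b) := by
        rw [Algebra.TensorProduct.algebraMap_apply, Algebra.TensorProduct.tmul_mul_tmul, one_mul,
          mul_one]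
        rfl
      rw [h1, map_mul (e m), map_mul (Ideal.Quotient.mk m.asIdeal), hd]
      rfl
    | add x y hx hy =>
      obtain ⟨c, hc⟩ := hx
      obtain ⟨d, hd⟩ := hy
      exact ⟨c + d, by rw [map_add, map_add, hc, hd]⟩
  obtain ⟨b, hb⟩ : ∃ b : B, ∀ m, b ∉ V m := by
    by_contra hcon
    push Not at hcon
    obtain ⟨m, hm⟩ := Subspace.exists_eq_top_of_iUnion_eq_univ (p := V)
      (Set.eq_univ_of_forall fun b => Set.mem_iUnion.2 (hcon b))
    exact hV m hm
  set θ : κ ⊗[A] B := (1 : κ) ⊗ₜ[A] b with hθ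
  have hint : IsIntegral κ θ := Algebra.IsIntegral.isIntegral θ
  set μ : κ[X] := minpoly κ θ with hμ
  have hroot : ∀ r, ¬ μ.IsRoot r := by
    intro r hr
    obtain ⟨q, hq⟩ := Polynomial.dvd_iff_isRoot.2 hr
    have hq0 : q ≠ 0 := by
      rintro rfl
      rw [mul_zero] at hq
      exact (minpoly.monic hint).ne_zero hq
    have h1 : (θ - algebraMap κ _ r) * aeval θ q = 0 := by
      have h2 := minpoly.aeval κ θ
      rw [← hμ, hq, map_mul, map_sub, aeval_X, aeval_C] at h2
      exact h2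
    have h2 : aeval θ q ≠ 0 := by
      intro h3
      have h4 := Polynomial.natDegree_le_natDegree (minpoly.degree_le_of_ne_zero κ θ hq0 h3)
      rw [← hμ, hq, Polynomial.natDegree_mul (X_sub_C_ne_zero r) hq0, natDegree_X_sub_C] at h4
      omega
    have h3 : ¬ IsUnit (θ - algebraMap κ _ r) := by
      intro hu
      exact h2 (hu.mul_right_eq_zero.1 h1)
    obtain ⟨M, hM, hθM⟩ := exists_max_ideal_of_mem_nonunits h3
    apply hb ⟨M, hM⟩
    refine ⟨r, ?_⟩
    change Ideal.Quotient.mk M θ = Ideal.Quotient.mk M (algebraMap κ _ r)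
    exact (Ideal.Quotient.eq).2 hθM
  -- the certificate
  obtain ⟨n, s, hs⟩ := Module.Finite.exists_fin (R := A) (M := B)
  let mm : Fin (μ.natDegree + 1) ⊕ Fin n → B := Sum.elim (fun l => b ^ (l : ℕ)) s
  let nn : Fin (μ.natDegree + 1) ⊕ Fin n → κ := Sum.elim (fun l => μ.coeff l) 0
  have hspan : Submodule.span A (Set.range mm) = ⊤ := by
    rw [eq_top_iff, ← hs]
    apply Submodule.span_mono
    rintro _ ⟨i, rfl⟩
    exact ⟨Sum.inr i, rfl⟩
  have hsum : ∑ i, mm i ⊗ₜ[A] nn i = 0 := by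
    have h1 : ∑ l : Fin (μ.natDegree + 1), (μ.coeff l) ⊗ₜ[A] (b ^ (l : ℕ)) = (0 : κ ⊗[A] B) := by
      have h2 := minpoly.aeval κ θ
      rw [← hμ, aeval_eq_sum_range, ← Fin.sum_univ_eq_sum_range
        (fun l => μ.coeff l • θ ^ l)] at h2
      rw [← h2]
      refine Finset.sum_congr rfl fun l _ => ?_
      rw [hθ, Algebra.TensorProduct.tmul_pow, one_pow, TensorProduct.smul_tmul', smul_eq_mul,
        mul_one]
    have h2 := congrArg (TensorProduct.comm A κ B) h1
    rw [map_sum, map_zero] at h2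
    rw [Fintype.sum_sum_type]
    have h3 : ∑ i : Fin n, mm (Sum.inr i) ⊗ₜ[A] nn (Sum.inr i) = 0 :=
      Finset.sum_eq_zero fun i _ => TensorProduct.tmul_zero _ _
    rw [h3, add_zero]
    exact h2
  obtain ⟨J, a, y, h1, h2⟩ := TensorProduct.vanishesTrivially_of_sum_tmul_eq_zero A hspan hsum
  refine ⟨b, μ, minpoly.monic hint, hroot, Finset.univ.image y, ?_⟩
  intro C hC hT μ' hμ' χ τ hχ
  have hy : ∀ j, y j ∈ C := fun j => hT _ (Finset.mem_image_of_mem _ (Finset.mem_univ j))
  have hdeg : μ'.natDegree = μ.natDegree := by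
    rw [← hμ', Polynomial.natDegree_map_eq_of_injective Subtype.val_injective]
  have hinj : Function.Injective (algebraMap C κ) := Subtype.val_injective
  -- the value of `nn i`
  have h3 : ∀ i, ∃ c : C, (c : κ) = nn i ∧
      χ c = ∑ j, τ (α (a i j)) * χ ⟨y j, hy j⟩ := by
    intro i
    refine ⟨∑ j, ⟨φ (a i j), hC _⟩ * ⟨y j, hy j⟩, ?_, ?_⟩
    · rw [h1 i, AddSubmonoidClass.coe_finsetSum]
      refine Finset.sum_congr rfl fun j _ => ?_
      rw [Algebra.smul_def]
      rfl
    · rw [map_sum]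
      refine Finset.sum_congr rfl fun j _ => ?_
      rw [map_mul, hχ (a i j) ⟨φ (a i j), hC _⟩ rfl]
  choose c hc1 hc2 using h3
  have hcl : ∀ l : Fin (μ.natDegree + 1), c (Sum.inl l) = μ'.coeff l := by
    intro l
    apply hinj
    change ((c (Sum.inl l) : C) : κ) = _
    rw [hc1, ← Polynomial.coeff_map, hμ']
    rfl
  have hcr : ∀ l : Fin n, c (Sum.inr l) = 0 := by
    intro l
    apply hinj
    change ((c (Sum.inr l) : C) : κ) = _
    rw [hc1, map_zero]
    rfl
  rw [IsRoot.def, eval_map, eval₂_eq_sum_range, hdeg, ← Fin.sum_univ_eq_sum_range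
    (fun l => χ (μ'.coeff l) * τ b ^ l)]
  have h4 : ∑ i, χ (c i) * τ (mm i) = 0 := by
    have h5 : ∀ i, χ (c i) * τ (mm i) = ∑ j, χ ⟨y j, hy j⟩ * τ (a i j • mm i) := by
      intro i
      rw [hc2, Finset.sum_mul]
      refine Finset.sum_congr rfl fun j _ => ?_
      rw [Algebra.smul_def, map_mul]
      change τ (α (a i j)) * χ ⟨y j, hy j⟩ * τ (mm i) =
        χ ⟨y j, hy j⟩ * (τ (α (a i j)) * τ (mm i))
      ring
    rw [Finset.sum_congr rfl fun i _ => h5 i, Finset.sum_comm]
    refine Finset.sum_eq_zero fun j _ => ?_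
    rw [← Finset.mul_sum, ← map_sum, h2 j, map_zero, mul_zero]
  rw [Fintype.sum_sum_type] at h4
  have h5 : ∑ i : Fin n, χ (c (Sum.inr i)) * τ (mm (Sum.inr i)) = 0 :=
    Finset.sum_eq_zero fun i _ => by rw [hcr, map_zero, zero_mul]
  rw [h5, add_zero] at h4
  rw [← h4]
  refine Finset.sum_congr rfl fun l _ => ?_
  rw [hcl, ← map_pow]
  rfl

/-- Lifting a homomorphism to `k(t_1, ..., t_r)` from lifts of the rational points. -/
theorem exists_lift_homN (k : Type) [Field k] [NumberField k] (r : ℕ) (A : Type) [CommRing A]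
    [Algebra k A] [Algebra.FiniteType k A]
    (φ : A →ₐ[k] FractionRing (MvPolynomial (Fin r) k)) {n : ℕ} (B : Fin n → Type)
    [∀ i, CommRing (B i)] (α : ∀ i, A →+* B i) (hα : ∀ i, (α i).Finite)
    (h : ∀ χ : A →ₐ[k] k, ∃ i, ∃ τ : B i →+* k, τ.comp (α i) = (χ : A →+* k)) :
    ∃ i, ∃ ψ : B i →+* FractionRing (MvPolynomial (Fin r) k),
      ψ.comp (α i) = (φ : A →+* FractionRing (MvPolynomial (Fin r) k)) := by
  classical
  by_contra hcon
  push Not at hcon
  have h0 : ∀ i, ¬ ∃ ψ : B i →+* FractionRing (MvPolynomial (Fin r) k),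
      ψ.comp (α i) = (φ : A →+* FractionRing (MvPolynomial (Fin r) k)) := by
    intro i hi
    obtain ⟨ψ, hψ⟩ := hi
    exact hcon i ψ hψ
  have h1 := fun i => exists_elt φ (α i) (hα i) (h0 i)
  choose b μ hμm hμr T hT using h1
  obtain ⟨S, hS⟩ := Algebra.FiniteType.out (R := k) (A := A)
  -- the finitely generated subalgebra
  let G : Finset (FractionRing (MvPolynomial (Fin r) k)) :=
    S.image φ ∪ Finset.univ.biUnion fun i => T i ∪ (μ i).coeffs
  let C : Subalgebra k (FractionRing (MvPolynomial (Fin r) k)) := Algebra.adjoin k (G : Set _)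
  have hGC : ∀ g ∈ G, g ∈ C := fun g hg => Algebra.subset_adjoin hg
  have hφC : ∀ a, φ a ∈ C := by
    intro a
    have h2 : a ∈ Algebra.adjoin k (S : Set A) := by rw [hS]; trivial
    have h3 : Algebra.adjoin k (S : Set A) ≤ C.comap φ := by
      apply Algebra.adjoin_le
      intro s hs
      exact hGC _ (Finset.mem_union_left _ (Finset.mem_image_of_mem _ hs))
    exact h3 h2
  have hTC : ∀ i, ∀ t ∈ T i, t ∈ C := fun i t ht =>
    hGC _ (Finset.mem_union_right _ (Finset.mem_biUnion.2 ⟨i, Finset.mem_univ i,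
      Finset.mem_union_left _ ht⟩))
  have hμC : ∀ i, ∀ l, (μ i).coeff l ∈ C := by
    intro i l
    by_cases hl : (μ i).coeff l = 0
    · rw [hl]
      exact C.zero_mem
    · exact hGC _ (Finset.mem_union_right _ (Finset.mem_biUnion.2 ⟨i, Finset.mem_univ i,
        Finset.mem_union_right _ (Polynomial.coeff_mem_coeffs hl)⟩))
  have hCft : Algebra.FiniteType k C :=
    Subalgebra.fg_iff_finiteType C |>.1 ⟨G, rfl⟩
  have h2 : ∀ i, ∃ μ' : C[X], μ'.map (algebraMap C _) = μ i ∧ μ'.Monic := by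
    intro i
    have h3 : μ i ∈ Polynomial.lifts (algebraMap C (FractionRing (MvPolynomial (Fin r) k))) := by
      rw [Polynomial.lifts_iff_coeff_lifts]
      intro l
      exact ⟨⟨_, hμC i l⟩, rfl⟩
    obtain ⟨q, hq, -, hqm⟩ := Polynomial.lifts_and_natDegree_eq_and_monic h3 (hμm i)
    exact ⟨q, hq, hqm⟩
  choose μ' hμ' hμ'm using h2
  obtain ⟨χ, hχ⟩ := exists_point_of_hom k r C C.val μ' hμ'm (by
    intro i x
    have h3 : (μ' i).map (C.val : C →+* FractionRing (MvPolynomial (Fin r) k)) = μ i := hμ' i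
    rw [h3]
    exact hμr i x)
  obtain ⟨i, τ, hτ⟩ := h (χ.comp (φ.codRestrict C hφC))
  refine hχ i (τ (b i)) (hT i C hφC (hTC i) (μ' i) (hμ' i) (χ : C →+* k) τ ?_)
  intro a c hc
  have h3 : τ (α i a) = χ (φ.codRestrict C hφC a) := congrArg (fun q : A →+* k => q a) hτ
  rw [h3]
  change χ _ = χ c
  congr 1
  exact Subtype.ext hc.symm

end Pool.Agent.LibK3F
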